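import Mathlib

set_option autoImplicit false
set_option linter.unusedVariables false

/-!
# Exponentials of continued logarithms
-/

open Set

noncomputable section

namespace Pool.Agent.X306.PL

/-- a function with zero derivative -/
theorem const_of_zero {φ : ℝ → ℂ} (h : ∀ t ∈ Icc (0 : ℝ) 1, HasDerivWithinAt φ 0 (Icc 0 1) t) : φ 1 = φ 0 := by
  have h1 := (convex_Icc (0 : ℝ) 1).norm_image_sub_le_of_norm_hasDerivWithin_le (C := 0) (f := φ)
    (f' := fun _ => 0) h (fun t _ => by rw [norm_zero]) (left_mem_Icc.2 zero_le_one) (right_mem_Icc.2 zero_le_one)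
  rw [zero_mul] at h1
  exact sub_eq_zero.1 (norm_le_zero_iff.1 h1)

theorem exp_log {γ γ' f : ℝ → ℂ} (hγ : ∀ t ∈ Icc (0 : ℝ) 1, γ t ≠ 0 ∧ HasDerivWithinAt γ (γ' t) (Icc 0 1) t)
    (hf : ∀ t ∈ Icc (0 : ℝ) 1, HasDerivWithinAt f (γ' t / γ t) (Icc 0 1) t) (h0 : Complex.exp (f 0) = γ 0) :
    Complex.exp (f 1) = γ 1 := by
  have h1 := const_of_zero (φ := fun t => γ t * Complex.exp (-f t)) (by
    intro t ht
    have h2 := (hγ t ht).2.mul ((hf t ht).neg.cexp)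
    refine h2.congr_deriv ?_
    have := (hγ t ht).1
    field_simp
    ring)
  have h2 : γ 0 ≠ 0 := by rw [← h0]; exact Complex.exp_ne_zero _
  change γ 1 * Complex.exp (-f 1) = γ 0 * Complex.exp (-f 0) at h1
  rw [Complex.exp_neg, Complex.exp_neg, h0, mul_inv_cancel₀ h2] at h1
  have h3 := Complex.exp_ne_zero (f 1)
  field_simp at h1
  exact h1.symm

theorem exp_log' {γ γ' f : ℝ → ℂ} (hγ : ∀ t ∈ Icc (0 : ℝ) 1, γ t ≠ 1 ∧ HasDerivWithinAt γ (γ' t) (Icc 0 1) t)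
    (hf : ∀ t ∈ Icc (0 : ℝ) 1, HasDerivWithinAt f (γ' t / (1 - γ t)) (Icc 0 1) t)
    (h0 : Complex.exp (-f 0) = 1 - γ 0) : Complex.exp (-f 1) = 1 - γ 1 := by
  refine exp_log (γ := fun t => 1 - γ t) (γ' := fun t => -γ' t) (f := fun t => -f t) (fun t ht => ?_) (fun t ht => ?_) h0
  · refine ⟨sub_ne_zero.2 (Ne.symm (hγ t ht).1), ?_⟩
    have h1 := (hγ t ht).2.const_sub (c := (1 : ℂ))
    exact h1
  · have h1 := (hf t ht).neg
    rw [neg_div]
    exact h1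

theorem tsum_one : ∑' j : ℕ, (1 / 2 : ℝ) ^ (j + 1) / ((j : ℝ) + 1) ^ 1 = Real.log 2 := by
  have h1 := (Real.hasSum_pow_div_log_of_abs_lt_one (x := 1 / 2) (by norm_num [abs_lt])).tsum_eq
  simp only [pow_one]
  rw [h1]
  have h2 : (1 : ℝ) - 1 / 2 = 2⁻¹ := by norm_num
  rw [h2, Real.log_inv, neg_neg]

end Pool.Agent.X306.PL
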