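import Pool.Agent.H297R2.InBakerThm
import Pool.Agent.W516.DRMain
import Pool.Agent.Y102.AV1
import Pool.Agent.X306.EM.Main

set_option autoImplicit false
set_option linter.unusedVariables false
set_option linter.unusedSectionVars false
set_option linter.unusedSimpArgs false

/-!
# Consequences of the theorem of Baker
-/

open Module

noncomputable section

namespace Pool.Agent.X306.PL

open Pool.Agent.W516.DR Pool.Agent.W245.EB Pool.Agent.Y102
open Pool.Agent.X306.EM (QB_iff)

variable {J : Type} [Fintype J]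

/-- from integral to rational relations -/
theorem rat_rel {θ w : J → ℂ} (hw : ∀ p : J → ℤ, ∑ j, (p j : ℂ) * θ j = 0 → ∑ j, (p j : ℂ) * w j = 0) (r : J → ℚ)
    (hr : ∑ j, (r j : ℂ) * θ j = 0) : ∑ j, (r j : ℂ) * w j = 0 := by
  obtain ⟨b, hb⟩ := IsLocalization.exist_integer_multiples_of_finite (nonZeroDivisors ℤ) r
  choose m hm using hb
  have hb0 : ((b : ℤ) : ℂ) ≠ 0 := Int.cast_ne_zero.2 (nonZeroDivisors.ne_zero b.2)
  have h1 : ∀ j, (m j : ℂ) = (b : ℤ) * (r j : ℂ) := by
    intro j
    have h2 := congrArg (fun q : ℚ => (q : ℂ)) (hm j)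
    simp only [eq_intCast, Rat.cast_intCast, zsmul_eq_mul, Rat.cast_mul] at h2
    rw [h2]
  have h2 : ∑ j, (m j : ℂ) * θ j = 0 := by
    simp only [h1, mul_assoc]
    rw [← Finset.mul_sum, hr, mul_zero]
  have h3 := hw m h2
  simp only [h1, mul_assoc] at h3
  rw [← Finset.mul_sum] at h3
  exact (mul_eq_zero.1 h3).resolve_left hb0

/-- **Baker**: relations with algebraic coefficients come from the integral ones -/
theorem alg_rel {θ : J → ℂ} (hθ : ∀ j, IsAlgebraic ℚ (Complex.exp (θ j))) {w : J → ℂ}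
    (hw : ∀ p : J → ℤ, ∑ j, (p j : ℂ) * θ j = 0 → ∑ j, (p j : ℂ) * w j = 0) {β : J → ℂ}
    (hβ : ∀ j, IsAlgebraic ℚ (β j)) (h : IsAlgebraic ℚ (∑ j, β j * θ j)) : ∑ j, β j * w j = 0 := by
  classical
  obtain ⟨b, hbs, hspan, hind⟩ := exists_linearIndependent ℚ (Set.range θ)
  have hfin : b.Finite := (Set.finite_range θ).subset hbs
  haveI : Fintype b := hfin.fintype
  have h1 : ∀ x : b, ∃ j, θ j = x := fun x => hbs x.2
  choose jx hjx using h1
  have h2 : ∀ j, ∃ r : b → ℚ, θ j = ∑ x, (r x : ℂ) * (x : ℂ) := by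
    intro j
    have h3 : θ j ∈ Submodule.span ℚ b := by
      rw [hspan]
      exact Submodule.subset_span ⟨j, rfl⟩
    have h4 : θ j ∈ Submodule.span ℚ (Set.range ((↑) : b → ℂ)) := by
      rwa [Subtype.range_coe]
    obtain ⟨r, hr⟩ := (Submodule.mem_span_range_iff_exists_fun ℚ).1 h4
    refine ⟨r, ?_⟩
    rw [← hr]
    exact Finset.sum_congr rfl fun x _ => Rat.smul_def _ _
  choose r hr using h2
  have h3 : ∀ j, w j = ∑ x, (r j x : ℂ) * w (jx x) := by
    intro j
    have h4 := rat_rel hw (fun k => (if k = j then 1 else 0) - ∑ x, if k = jx x then r j x else 0) (by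
      simp only [Rat.cast_sub, Rat.cast_sum, sub_mul, Finset.sum_sub_distrib]
      rw [Finset.sum_eq_single j (fun k _ hk => by rw [if_neg hk, Rat.cast_zero, zero_mul])
        (fun h => absurd (Finset.mem_univ _) h), if_pos rfl, Rat.cast_one, one_mul]
      simp only [Finset.sum_mul]
      rw [Finset.sum_comm]
      have h5 : ∀ x : b, ∑ k, ((if k = jx x then r j x else 0 : ℚ) : ℂ) * θ k = (r j x : ℂ) * x := by
        intro x
        rw [Finset.sum_eq_single (jx x) (fun k _ hk => by rw [if_neg hk, Rat.cast_zero, zero_mul])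
          (fun h => absurd (Finset.mem_univ _) h), if_pos rfl, hjx]
      rw [Finset.sum_congr rfl fun x _ => h5 x, ← hr, sub_self])
    simp only [Rat.cast_sub, Rat.cast_sum, sub_mul, Finset.sum_sub_distrib] at h4
    rw [Finset.sum_eq_single j (fun k _ hk => by rw [if_neg hk, Rat.cast_zero, zero_mul])
      (fun h => absurd (Finset.mem_univ _) h), if_pos rfl, Rat.cast_one, one_mul] at h4
    simp only [Finset.sum_mul] at h4
    rw [Finset.sum_comm] at h4
    have h5 : ∀ x : b, ∑ k, ((if k = jx x then r j x else 0 : ℚ) : ℂ) * w k = (r j x : ℂ) * w (jx x) := by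
      intro x
      rw [Finset.sum_eq_single (jx x) (fun k _ hk => by rw [if_neg hk, Rat.cast_zero, zero_mul])
        (fun h => absurd (Finset.mem_univ _) h), if_pos rfl]
    rw [Finset.sum_congr rfl fun x _ => h5 x, sub_eq_zero] at h4
    exact h4
  have h4 : ∑ j, β j * θ j = ∑ x : b, (∑ j, β j * (r j x : ℂ)) * x := by
    simp only [Finset.sum_mul]
    rw [Finset.sum_comm]
    refine Finset.sum_congr rfl fun j _ => ?_
    conv_lhs => rw [hr j]
    rw [Finset.mul_sum]
    exact Finset.sum_congr rfl fun x _ => by ring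
  have hγ : ∀ x : b, IsAlgebraic ℚ (∑ j, β j * (r j x : ℂ)) := by
    intro x
    have h5 : ∀ j, β j * (r j x : ℂ) ∈ QB := fun j =>
      QB.mul_mem ((QB_iff _).1 (hβ j)) ((QB_iff _).1 (isAlgebraic_algebraMap (r j x)))
    exact (QB_iff _).2 (QB.sum_mem fun j _ => h5 j)
  have h5 := (Pool.Agent.H297R2.baker_inhom (fun x : b => (x : ℂ)) (fun x => by
      rw [← hjx x]
      exact hθ _) hind (-(∑ j, β j * θ j)) h.neg (fun x => ∑ j, β j * (r j x : ℂ)) hγ (by
      rw [← h4]
      ring)).2
  have h6 : ∑ j, β j * w j = ∑ x : b, (∑ j, β j * (r j x : ℂ)) * w (jx x) := by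
    simp only [Finset.sum_mul]
    rw [Finset.sum_comm]
    refine Finset.sum_congr rfl fun j _ => ?_
    conv_lhs => rw [h3 j]
    rw [Finset.mul_sum]
    exact Finset.sum_congr rfl fun x _ => by ring
  rw [h6]
  exact Finset.sum_eq_zero fun x _ => by rw [h5 x, zero_mul]

/-- the algebraic components of the derivatives of logarithms span everything which is possible -/
theorem baker_span {θ : J → ℂ} (hθ : ∀ j, IsAlgebraic ℚ (Complex.exp (θ j))) (W : Submodule ℂ (J → ℂ))
    (hW : ∀ (D : Derivation QBar ℂ ℂ) (f : ℂ →ₗ[QB] ℂ), (fun j => f (D (θ j))) ∈ W) {w : J → ℂ}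
    (hw : ∀ p : J → ℤ, ∑ j, (p j : ℂ) * θ j = 0 → ∑ j, (p j : ℂ) * w j = 0) : w ∈ W := by
  classical
  by_contra hcon
  obtain ⟨φ, hφ, hφW⟩ : ∃ φ : (J → ℂ) →ₗ[ℂ] ℂ, φ w ≠ 0 ∧ ∀ z ∈ W, φ z = 0 := by
    obtain ⟨φ, h1, h2⟩ := Submodule.exists_le_ker_of_notMem hcon
    exact ⟨φ, h1, fun z hz => h2 hz⟩
  set c : J → ℂ := fun j => φ (Pi.single j 1) with hc
  have hφc : ∀ z : J → ℂ, φ z = ∑ j, c j * z j := by
    intro z
    conv_lhs => rw [LinearMap.pi_apply_eq_sum_univ φ z]
    refine Finset.sum_congr rfl fun j _ => ?_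
    have h : (fun k => if j = k then (1 : ℂ) else 0) = Pi.single j 1 := by
      funext k
      rw [Pi.single_apply]
      by_cases hk : j = k
      · rw [if_pos hk, if_pos hk.symm]
      · rw [if_neg hk, if_neg (Ne.symm hk)]
    rw [h, smul_eq_mul, mul_comm]
  -- the functionals
  have key : ∀ g : ℂ →ₗ[QB] QB, ∑ j, ((g (c j) : QB) : ℂ) * w j = 0 := by
    intro g
    refine alg_rel hθ hw (fun j => (QB_iff _).2 (g (c j)).2) ?_
    have h1 : ∀ D : Derivation QBar ℂ ℂ, D (∑ j, ((g (c j) : QB) : ℂ) * θ j) = 0 := by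
      intro D
      have h2 : D (∑ j, ((g (c j) : QB) : ℂ) * θ j) = ∑ j, ((g (c j) : QB) : ℂ) * D (θ j) := by
        rw [map_sum]
        refine Finset.sum_congr rfl fun j _ => ?_
        rw [Derivation.leibniz]
        have h3 : D ((g (c j) : QB) : ℂ) = 0 := by
          have h4 := D.map_algebraMap (⟨((g (c j) : QB) : ℂ), (g (c j)).2⟩ : QBar)
          exact h4
        rw [h3, smul_zero, add_zero, smul_eq_mul]
      rw [h2]
      refine eq_zero_of_dual (k := QB) fun f => ?_
      have h3 := hφW _ (hW D ((Algebra.linearMap QB ℂ).comp f))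
      rw [hφc] at h3
      have h4 := congrArg g h3
      rw [map_zero, map_sum] at h4
      rw [map_sum, ← h4]
      refine Finset.sum_congr rfl fun j _ => ?_
      have h5 : ((g (c j) : QB) : ℂ) * D (θ j) = (g (c j)) • D (θ j) := rfl
      rw [h5, map_smul, smul_eq_mul]
      have h6 : c j * ((Algebra.linearMap QB ℂ).comp f) (D (θ j)) = (f (D (θ j))) • c j := by
        rw [mul_comm]
        rfl
      rw [h6, map_smul, smul_eq_mul, mul_comm]
    obtain ⟨x, hx⟩ := mem_of_derivation h1
    rw [← hx]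
    exact QBar.alg x
  apply hφ
  rw [hφc]
  -- expand the coefficients
  let B := Basis.ofVectorSpace QB ℂ
  let s := Finset.univ.biUnion fun j => (B.repr (c j)).support
  have h1 : ∀ j, c j = ∑ i ∈ s, ((B.coord i (c j) : QB) : ℂ) * B i := by
    intro j
    conv_lhs => rw [← B.linearCombination_repr (c j)]
    rw [Finsupp.linearCombination_apply, Finsupp.sum]
    rw [Finset.sum_subset (Finset.subset_biUnion_of_mem (fun j => (B.repr (c j)).support) (Finset.mem_univ j))]
    · exact Finset.sum_congr rfl fun i _ => rfl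
    · intro i _ hi
      rw [Finsupp.notMem_support_iff.1 hi, zero_smul]
  have h2 : ∑ j, c j * w j = ∑ i ∈ s, B i * ∑ j, ((B.coord i (c j) : QB) : ℂ) * w j := by
    simp only [Finset.mul_sum]
    rw [Finset.sum_comm]
    refine Finset.sum_congr rfl fun j _ => ?_
    conv_lhs => rw [h1 j]
    rw [Finset.sum_mul]
    exact Finset.sum_congr rfl fun i _ => by ring
  rw [h2]
  exact Finset.sum_eq_zero fun i _ => by rw [key (B.coord i), mul_zero]

end Pool.Agent.X306.PL
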