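import Pool.Agent.Y123.ST.Exp
import Pool.Agent.Y123.ST.Lie

set_option autoImplicit false
set_option linter.unusedVariables false
set_option linter.unusedSectionVars false
set_option linter.unusedSimpArgs false

/-!
# Polynomial paths in a subtorsor
-/

open Matrix MvPolynomial

noncomputable section

namespace Pool.Agent.X306.PL

open Pool.Agent.TH127.PT Pool.Agent.TH119.MX Pool.Agent.TH119.DR Pool.Agent.Y123.ST

variable {N : Type} [Fintype N] [DecidableEq N] {K : Subfield ℂ} {T : Set (Matrix N N ℂ)}

theorem eval_aeval {B : Type*} [Fintype B] (g : B → Polynomial ℂ) (P : MvPolynomial B ℂ) (s : ℂ) :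
    Polynomial.eval s (aeval g P) = eval (fun k => Polynomial.eval s (g k)) P := by
  induction P using MvPolynomial.induction_on with
  | C a => simp
  | add p q hp hq => rw [map_add, Polynomial.eval_add, hp, hq, map_add]
  | mul_X p b hp =>
    rw [map_mul, Polynomial.eval_mul, hp, aeval_X, map_mul, eval_X]

theorem aeval_sb_ml (E : Matrix N N ℂ) (G : Matrix N N (Polynomial ℂ)) (b : N × N) :
    aeval (fun k : N × N => G k.1 k.2) (sb (ml E) b) = ∑ k, Polynomial.C (E b.1 k) * G k b.2 := by
  unfold sb
  rw [map_sum, Fintype.sum_prod_type]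
  refine Finset.sum_congr rfl fun i _ => ?_
  rw [Finset.sum_eq_single b.2]
  · rw [map_mul, aeval_X, aeval_C]
    have h1 : ml E (Pi.single (i, b.2) 1) b = E b.1 i := by
      change (E * um (Pi.single (i, b.2) 1)) b.1 b.2 = _
      rw [Matrix.mul_apply, Finset.sum_eq_single i]
      · change E b.1 i * (Pi.single (i, b.2) (1 : ℂ) : N × N → ℂ) (i, b.2) = _
        rw [Pi.single_eq_same, mul_one]
      · intro k _ hk
        change E b.1 k * (Pi.single (i, b.2) (1 : ℂ) : N × N → ℂ) (k, b.2) = _
        rw [Pi.single_eq_of_ne (fun h => hk (Prod.ext_iff.1 h).1), mul_zero]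
      · intro h
        exact absurd (Finset.mem_univ _) h
    rw [h1]
    rfl
  · intro j _ hj
    rw [map_mul, aeval_C]
    have h1 : ml E (Pi.single (i, j) 1) b = 0 := by
      change (E * um (Pi.single (i, j) 1)) b.1 b.2 = _
      rw [Matrix.mul_apply]
      refine Finset.sum_eq_zero fun k _ => ?_
      change E b.1 k * (Pi.single (i, j) (1 : ℂ) : N × N → ℂ) (k, b.2) = _
      rw [Pi.single_eq_of_ne (fun h => hj (Prod.ext_iff.1 h).2.symm), mul_zero]
    rw [h1, map_zero, zero_mul]
  · intro h
    exact absurd (Finset.mem_univ _) h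

/-- a polynomial path which is an integral curve of an element of the Lie algebra stays in the subtorsor -/
theorem path_mem (hT : IsSubtorsor K T) {E : Matrix N N ℂ} (hE : fl E ∈ LL T) (u : Polynomial ℂ) {a : ℂ}
    (ha : u.eval a ≠ 0) (G : Matrix N N (Polynomial ℂ))
    (hG : ∀ i j, u * Polynomial.derivative (G i j) = ∑ k, Polynomial.C (E i k) * G k j)
    (h0 : G.map (Polynomial.eval a) ∈ T) {s : ℂ} (hs : IsUnit (G.map (Polynomial.eval s))) :
    G.map (Polynomial.eval s) ∈ T := by
  have hT' := hT
  obtain ⟨I, h1, h2⟩ := hT.algebraic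
  have hIV : ∀ p ∈ I, Van T p := fun p hp y hy => ((h2 y).1 hy).2 p hp
  have hz := all_zero (Van T) (fun P => aeval (fun b : N × N => G b.1 b.2) P) (Pool.Agent.Y123.ST.DL E) a u ha
    (by
      intro P hP
      rw [eval_aeval]
      exact hP _ h0)
    (fun P hP => van_DL hE hP) (by
      intro P _
      rw [deriv_aeval]
      unfold Pool.Agent.Y123.ST.DL
      rw [map_sum, Finset.mul_sum]
      refine Finset.sum_congr rfl fun b _ => ?_
      rw [map_mul, aeval_sb_ml, ← hG]
      ring)
  rw [h2]
  refine ⟨hs, fun p hp => ?_⟩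
  have h3 := hz p (hIV p hp)
  have h4 := eval_aeval (fun b : N × N => G b.1 b.2) p s
  rw [h3, Polynomial.eval_zero] at h4
  exact h4.symm

/-- polynomials have antiderivatives -/
theorem exists_anti (p : Polynomial ℂ) (c : ℂ) : ∃ q : Polynomial ℂ, Polynomial.derivative q = p ∧ q.eval 0 = c := by
  induction p using Polynomial.induction_on' with
  | add p q hp hq =>
    obtain ⟨p', h1, h2⟩ := hp
    obtain ⟨q', h3, h4⟩ := hq
    refine ⟨p' + q' - Polynomial.C c, ?_, ?_⟩
    · rw [Polynomial.derivative_sub, Polynomial.derivative_add, h1, h3, Polynomial.derivative_C, sub_zero]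
    · rw [Polynomial.eval_sub, Polynomial.eval_add, h2, h4, Polynomial.eval_C]
      ring
  | monomial n a =>
    refine ⟨Polynomial.monomial (n + 1) (a / (n + 1)) + Polynomial.C c, ?_, ?_⟩
    · rw [Polynomial.derivative_add, Polynomial.derivative_C, add_zero, Polynomial.derivative_monomial]
      congr 1
      push_cast
      have : (n : ℂ) + 1 ≠ 0 := by exact_mod_cast Nat.succ_ne_zero n
      field_simp
    · rw [Polynomial.eval_add, Polynomial.eval_monomial, Polynomial.eval_C, zero_pow (Nat.succ_ne_zero n)]
      ring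

end Pool.Agent.X306.PL
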