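import Pool.Agent.X306.PL.Mat
import Pool.Agent.X306.PL.Bak
import Pool.Agent.X306.PL.Path
import Pool.Agent.X306.RL.Sg

set_option autoImplicit false
set_option linter.unusedVariables false
set_option linter.unusedSectionVars false
set_option linter.unusedSimpArgs false

/-!
# The Lie algebra of a subtorsor for polylogarithm motives
-/

open Matrix Module

noncomputable section

namespace Pool.Agent.X306.PL

open Pool.Agent.W516.DR Pool.Agent.W245.EB Pool.Agent.Y102
open Pool.Agent.TH127.PT Pool.Agent.TH119.MX Pool.Agent.TH119.DR Pool.Agent.Y123.ST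
open Pool.Agent.X306.EM (QB_iff)
open Pool.Agent.X306.RL (LL_br derD)

variable {m n : ℕ} {T : Set (Matrix (Fin (n + 1) × Fin m) (Fin (n + 1) × Fin m) ℂ)}

/-- a derivation over the algebraic numbers -/
def dB (D : Derivation QBar ℂ ℂ) : Derivation QB ℂ ℂ :=
  derD (D.restrictScalars ℚ) QB fun x hx => (QB_iff x).2 hx

theorem lie_der (hT : IsSubtorsor QB T) {μ : ℂ} (hμ : μ ≠ 0) {x : Fin m → ℂ} {y : Fin m → ℕ → ℂ}
    (hP : BP n μ x y ∈ T) (D : Derivation QBar ℂ ℂ) : ∃ η : Fin m → ℕ → ℂ, (∀ i, η i 1 = D (y i 1) / μ) ∧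
      fl (BL n (D μ / μ) (fun i => D (x i) / μ) η) ∈ LL T := by
  have hb : ∀ i r, 1 ≤ r → ent μ (x i) (y i) r r ≠ 0 := by
    intro i r hr
    rw [ent_pos _ _ _ hr le_rfl, Nat.sub_self, Nat.factorial_zero, Nat.cast_one, div_one, one_smul, pow_zero, mul_one]
    exact pow_ne_zero _ hμ
  choose η hη using fun i => solve (b := ent μ (x i) (y i)) (hb i) (fun r => D (y i r)) (n + 1)
  refine ⟨η, fun i => ?_, ?_⟩
  · have h1 := hη i 1 le_rfl (by omega)
    rw [Finset.Icc_self, Finset.sum_singleton, ent_pos _ _ _ le_rfl le_rfl, Nat.sub_self, Nat.factorial_zero,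
      Nat.cast_one, div_one, one_smul, pow_zero, mul_one, pow_one] at h1
    rw [← h1, mul_div_cancel_right₀ _ hμ]
  · have h1 := logder_mem hT (dB D) hP
    have h2 : (BP n μ x y).map (dB D) = BL n (D μ / μ) (fun i => D (x i) / μ) η * BP n μ x y := by
      unfold BP BL
      rw [← blockDiagonal_mul, blockDiagonal_map _ _ (map_zero (dB D))]
      congr 1
      funext i
      ext s r
      rw [Matrix.map_apply, Matrix.of_apply, Matrix.mul_apply]
      simp only [Matrix.of_apply]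
      refine der_ent (D.restrictScalars ℚ) (div_mul_cancel₀ _ hμ).symm (div_mul_cancel₀ _ hμ).symm
        (fun r h1 h2 => (hη i r h1 (by omega)).symm) (by omega) (by omega)
    rw [h2, Matrix.mul_assoc, Matrix.mul_nonsing_inv _ ((Matrix.isUnit_iff_isUnit_det _).1 (BP_unit hμ x y)),
      Matrix.mul_one] at h1
    exact h1

/-- the possible values of the coordinates of degree at most one -/
def WW (T : Set (Matrix (Fin (n + 1) × Fin m) (Fin (n + 1) × Fin m) ℂ)) :
    Submodule ℂ (Unit ⊕ (Fin m ⊕ Fin m) → ℂ) where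
  carrier := {z | ∃ η : Fin m → ℕ → ℂ, (∀ i, η i 1 = z (Sum.inr (Sum.inr i))) ∧
    fl (BL n (z (Sum.inl ())) (fun i => z (Sum.inr (Sum.inl i))) η) ∈ LL T}
  zero_mem' := ⟨0, fun _ => rfl, by
    have h := BL_zero (n := n) (m := m)
    change fl (BL n (0 : ℂ) (0 : Fin m → ℂ) 0) ∈ LL T
    rw [h, fl_zero]
    exact (LL T).zero_mem⟩
  add_mem' := by
    rintro z z' ⟨η, h1, h2⟩ ⟨η', h3, h4⟩
    refine ⟨η + η', fun i => ?_, ?_⟩
    · rw [Pi.add_apply, Pi.add_apply, h1, h3]
      rfl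
    · have h5 := (LL T).add_mem h2 h4
      rw [← fl_add, BL_add] at h5
      exact h5
  smul_mem' := by
    rintro a z ⟨η, h1, h2⟩
    refine ⟨a • η, fun i => ?_, ?_⟩
    · rw [Pi.smul_apply, Pi.smul_apply, h1]
      rfl
    · have h5 := (LL T).smul_mem a h2
      rw [← fl_smul, BL_smul] at h5
      exact h5

/-- The relations between logarithms. -/
def Rel (l l' : Fin m → ℂ) (c : ℂ) (ξ ξ' : Fin m → ℂ) : Prop :=
  ∀ (p q : Fin m → ℤ) (k : ℤ), ∑ i, (p i : ℂ) * l i + ∑ i, (q i : ℂ) * l' i = k * (2 * Real.pi * Complex.I) →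
    ∑ i, (p i : ℂ) * ξ i + ∑ i, (q i : ℂ) * ξ' i = k * c

variable {l l' : Fin m → ℂ} {y : Fin m → ℕ → ℂ}

theorem lie_mem (hT : IsSubtorsor QB T) (hP : BP n (2 * Real.pi * Complex.I) l y ∈ T) (hy : ∀ i, y i 1 = l' i)
    (hl : ∀ i, IsAlgebraic ℚ (Complex.exp (l i))) (hl' : ∀ i, IsAlgebraic ℚ (Complex.exp (l' i))) {c : ℂ}
    {ξ ξ' : Fin m → ℂ} (h : Rel l l' c ξ ξ') :
    ∃ η : Fin m → ℕ → ℂ, (∀ i, η i 1 = ξ' i) ∧ fl (BL n c ξ η) ∈ LL T := by
  have hw : (2 * Real.pi * Complex.I : ℂ) ≠ 0 := Complex.two_pi_I_ne_zero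
  set θ : Unit ⊕ (Fin m ⊕ Fin m) → ℂ :=
    Sum.elim (fun _ => 2 * Real.pi * Complex.I) (Sum.elim l l') with hθ
  have h1 := baker_span (θ := θ) (by
    rintro (j | j | j)
    · change IsAlgebraic ℚ (Complex.exp (2 * Real.pi * Complex.I))
      rw [Complex.exp_two_pi_mul_I]
      exact isAlgebraic_one
    · exact hl j
    · exact hl' j) (WW T) (by
    intro D f
    obtain ⟨η, h2, h3⟩ := lie_der hT hw hP D
    let f' : ℂ →ₗ[QB] ℂ := f.comp (LinearMap.mulLeft QB (2 * Real.pi * Complex.I : ℂ))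
    have hf' : ∀ z : ℂ, f' (z / (2 * Real.pi * Complex.I)) = f z := by
      intro z
      change f ((2 * Real.pi * Complex.I) * (z / (2 * Real.pi * Complex.I))) = f z
      rw [mul_div_cancel₀ _ hw]
    have h4 := (LL_def hT).map f' h3
    have h5 : fl ((BL n (D (2 * Real.pi * Complex.I) / (2 * Real.pi * Complex.I))
      (fun i => D (l i) / (2 * Real.pi * Complex.I)) η).map f') ∈ LL T := h4
    rw [BL_map (map_zero f') (fun z k => by
      rw [mul_comm, ← nsmul_eq_mul, map_nsmul, nsmul_eq_mul, mul_comm])] at h5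
    simp only [hf'] at h5
    refine ⟨fun i r => f' (η i r), fun i => ?_, h5⟩
    change f' (η i 1) = f (D (l' i))
    rw [h2, hf', hy]) (w := Sum.elim (fun _ => c) (Sum.elim ξ ξ')) (by
    intro p hp
    simp only [Fintype.sum_sum_type, Finset.univ_unique, Finset.sum_singleton, hθ, Sum.elim_inl, Sum.elim_inr,
      PUnit.default_eq_unit] at hp ⊢
    have h2 := h (fun i => p (Sum.inr (Sum.inl i))) (fun i => p (Sum.inr (Sum.inr i))) (-p (Sum.inl ())) (by
      push_cast
      linear_combination hp)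
    push_cast at h2
    linear_combination h2)
  obtain ⟨η, h2, h3⟩ := h1
  exact ⟨η, h2, h3⟩

/-- A homomorphism from the multiplicative group to the rational numbers. -/
def IsHom (v : ℂ → ℚ) : Prop := ∀ z w : ℂ, z ≠ 0 → w ≠ 0 → v (z * w) = v z + v w

/-- the homomorphism -/
def vh {v : ℂ → ℚ} (hv : IsHom v) : Additive ℂˣ →+ ℚ :=
  AddMonoidHom.mk' (fun u => v ((Additive.toMul u : ℂˣ) : ℂ)) fun u u' => hv _ _ (Units.ne_zero _) (Units.ne_zero _)

theorem rel_hom {v : ℂ → ℚ} (hv : IsHom v) {a b : Fin m → ℂ} (hl : ∀ i, Complex.exp (l i) = a i)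
    (hl' : ∀ i, Complex.exp (l' i) = b i) : Rel l l' 0 (fun i => (v (a i) : ℂ)) (fun i => (v (b i) : ℂ)) := by
  intro p q k h
  rw [mul_zero]
  have ha : ∀ i, a i ≠ 0 := fun i => by rw [← hl]; exact Complex.exp_ne_zero _
  have hb : ∀ i, b i ≠ 0 := fun i => by rw [← hl']; exact Complex.exp_ne_zero _
  have h1 : (∏ i, Units.mk0 (a i) (ha i) ^ p i) * (∏ i, Units.mk0 (b i) (hb i) ^ q i) = 1 := by
    ext
    push_cast
    simp only [Units.val_mk0]
    rw [← Complex.exp_int_mul_two_pi_mul_I k, ← h, Complex.exp_add, Complex.exp_sum, Complex.exp_sum]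
    congr 1
    · exact Finset.prod_congr rfl fun i _ => by rw [Complex.exp_int_mul, hl]
    · exact Finset.prod_congr rfl fun i _ => by rw [Complex.exp_int_mul, hl']
  have h2 := congrArg (fun u : ℂˣ => vh hv (Additive.ofMul u)) h1
  simp only [ofMul_mul, ofMul_prod, ofMul_zpow, map_add, map_sum, map_zsmul, ofMul_one, map_zero] at h2
  have h3 : ∀ i, vh hv (Additive.ofMul (Units.mk0 (a i) (ha i))) = v (a i) := fun i => rfl
  have h4 : ∀ i, vh hv (Additive.ofMul (Units.mk0 (b i) (hb i))) = v (b i) := fun i => rfl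
  simp only [h3, h4, zsmul_eq_mul] at h2
  have h5 := congrArg (fun q : ℚ => (q : ℂ)) h2
  push_cast at h5
  exact h5

/-- The elements `a_i ∧ b_i` are linearly independent. -/
def WedgeInd (a b : Fin m → ℂ) : Prop :=
  ∀ k : Fin m → ℤ, (∀ v w : ℂ → ℚ, IsHom v → IsHom w →
    ∑ i, (k i : ℚ) * (v (a i) * w (b i) - w (a i) * v (b i)) = 0) → k = 0

/-- the wedge vectors span everything -/
theorem wedge_span {a b : Fin m → ℂ} (h : WedgeInd a b) (t : Fin m → ℚ) :
    t ∈ Submodule.span ℚ {z : Fin m → ℚ | ∃ v w : ℂ → ℚ, IsHom v ∧ IsHom w ∧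
      z = fun i => v (a i) * w (b i) - w (a i) * v (b i)} := by
  classical
  by_contra hcon
  obtain ⟨φ, h1, h2⟩ := Submodule.exists_le_ker_of_notMem hcon
  obtain ⟨d, hd⟩ := IsLocalization.exist_integer_multiples_of_finite (nonZeroDivisors ℤ)
    (fun i : Fin m => φ (Pi.single i 1))
  choose k hk using hd
  have hd0 : ((d : ℤ) : ℚ) ≠ 0 := Int.cast_ne_zero.2 (nonZeroDivisors.ne_zero d.2)
  have hk' : ∀ i, (k i : ℚ) = (d : ℤ) * φ (Pi.single i 1) := by
    intro i
    have h3 := hk i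
    simp only [eq_intCast, zsmul_eq_mul] at h3
    exact h3
  have hφ : ∀ z : Fin m → ℚ, φ z = ∑ i, φ (Pi.single i 1) * z i := by
    intro z
    conv_lhs => rw [LinearMap.pi_apply_eq_sum_univ φ z]
    refine Finset.sum_congr rfl fun j _ => ?_
    have h : (fun k => if j = k then (1 : ℚ) else 0) = Pi.single j 1 := by
      funext k
      rw [Pi.single_apply]
      by_cases hk : j = k
      · rw [if_pos hk, if_pos hk.symm]
      · rw [if_neg hk, if_neg (Ne.symm hk)]
    rw [h, smul_eq_mul, mul_comm]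
  have h3 := h k (by
    intro v w hv hw
    have h4 := h2 (Submodule.subset_span ⟨v, w, hv, hw, rfl⟩)
    rw [LinearMap.mem_ker, hφ] at h4
    simp only [hk', mul_assoc]
    rw [← Finset.mul_sum, h4, mul_zero])
  apply h1
  rw [hφ]
  refine Finset.sum_eq_zero fun i _ => ?_
  have h4 := hk' i
  rw [h3, Pi.zero_apply, Int.cast_zero] at h4
  rw [(mul_eq_zero.1 h4.symm).resolve_left hd0, zero_mul]

theorem exists_hom {a b : Fin m → ℂ} (h : WedgeInd a b) (i : Fin m) : ∃ v : ℂ → ℚ, IsHom v ∧ v (a i) ≠ 0 := by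
  classical
  by_contra hcon
  push Not at hcon
  have h1 := h (Pi.single i 1) (by
    intro v w hv hw
    refine Finset.sum_eq_zero fun j _ => ?_
    by_cases hj : j = i
    · subst hj
      rw [hcon v hv, hcon w hw]
      ring
    · rw [Pi.single_eq_of_ne hj, Int.cast_zero, zero_mul])
  have h2 := congrFun h1 i
  rw [Pi.single_eq_same, Pi.zero_apply] at h2
  exact one_ne_zero h2

/-- the leading coefficients in degree `k` -/
def UU (T : Set (Matrix (Fin (n + 1) × Fin m) (Fin (n + 1) × Fin m) ℂ)) (k : ℕ) : Submodule ℂ (Fin m → ℂ) where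
  carrier := {t | ∃ η : Fin m → ℕ → ℂ, (∀ i r, r < k → η i r = 0) ∧ (∀ i, η i k = t i) ∧ fl (BL n 0 0 η) ∈ LL T}
  zero_mem' := ⟨0, fun _ _ _ => rfl, fun _ => rfl, by
    rw [BL_zero, fl_zero]
    exact (LL T).zero_mem⟩
  add_mem' := by
    rintro t t' ⟨η, h1, h2, h3⟩ ⟨η', h4, h5, h6⟩
    refine ⟨η + η', fun i r hr => ?_, fun i => ?_, ?_⟩
    · rw [Pi.add_apply, Pi.add_apply, h1 i r hr, h4 i r hr, add_zero]
    · rw [Pi.add_apply, Pi.add_apply, h2, h5]
      rfl
    · have h7 := (LL T).add_mem h3 h6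
      rw [← fl_add, BL_add, add_zero, add_zero] at h7
      exact h7
  smul_mem' := by
    rintro a t ⟨η, h1, h2, h3⟩
    refine ⟨a • η, fun i r hr => ?_, fun i => ?_, ?_⟩
    · rw [Pi.smul_apply, Pi.smul_apply, h1 i r hr, smul_zero]
    · rw [Pi.smul_apply, Pi.smul_apply, h2]
      rfl
    · have h7 := (LL T).smul_mem a h3
      rw [← fl_smul, BL_smul, mul_zero, smul_zero] at h7
      exact h7

theorem UU_top (hT : IsSubtorsor QB T) (hP : BP n (2 * Real.pi * Complex.I) l y ∈ T) (hy : ∀ i, y i 1 = l' i)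
    {a b : Fin m → ℂ} (hl : ∀ i, Complex.exp (l i) = a i) (hl' : ∀ i, Complex.exp (l' i) = b i)
    (ha : ∀ i, IsAlgebraic ℚ (a i)) (hb : ∀ i, IsAlgebraic ℚ (b i)) (h : WedgeInd a b) (k : ℕ) (hk : 2 ≤ k)
    (t : Fin m → ℂ) : t ∈ UU T k := by
  classical
  have hN : ∀ v : ℂ → ℚ, IsHom v → ∃ η : Fin m → ℕ → ℂ, (∀ i, η i 1 = (v (b i) : ℂ)) ∧
      fl (BL n 0 (fun i => (v (a i) : ℂ)) η) ∈ LL T := fun v hv =>
    lie_mem hT hP hy (fun i => by rw [hl]; exact ha i) (fun i => by rw [hl']; exact hb i) (rel_hom hv hl hl')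
  have hsuf : ∀ k : ℕ, (∀ i, (Pi.single i 1 : Fin m → ℂ) ∈ UU T k) → ∀ t : Fin m → ℂ, t ∈ UU T k := by
    intro k hk t
    have h1 : t = ∑ i, t i • (Pi.single i 1 : Fin m → ℂ) := by
      funext j
      rw [Finset.sum_apply, Finset.sum_eq_single j]
      · rw [Pi.smul_apply, Pi.single_eq_same, smul_eq_mul, mul_one]
      · intro i _ hi
        rw [Pi.smul_apply, Pi.single_eq_of_ne (Ne.symm hi), smul_zero]
      · intro h
        exact absurd (Finset.mem_univ _) h
    rw [h1]
    exact (UU T k).sum_mem fun i _ => (UU T k).smul_mem _ (hk i)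
  induction k, hk using Nat.le_induction generalizing t with
  | base =>
    refine hsuf 2 (fun i => ?_) t
    have h1 := wedge_span h (Pi.single i 1)
    have key : ∀ z : Fin m → ℚ, z ∈ Submodule.span ℚ {z : Fin m → ℚ | ∃ v w : ℂ → ℚ, IsHom v ∧ IsHom w ∧
        z = fun i => v (a i) * w (b i) - w (a i) * v (b i)} → (fun i => (z i : ℂ)) ∈ UU T 2 := by
      intro z hz
      induction hz using Submodule.span_induction with
      | mem z hz =>
        obtain ⟨v, w, hv, hw, rfl⟩ := hz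
        obtain ⟨η, h2, h3⟩ := hN v hv
        obtain ⟨η', h4, h5⟩ := hN w hw
        have h6 := LL_br h5 h3
        rw [BL_comm] at h6
        refine ⟨_, fun i r hr => ?_, fun i => ?_, h6⟩
        · exact if_neg (by omega)
        · change (if 2 ≤ 2 then _ else _) = _
          rw [if_pos le_rfl]
          change (v (a i) : ℂ) * η' i 1 - (w (a i) : ℂ) * η i 1 = _
          rw [h4, h2]
          push_cast
          ring
      | zero =>
        refine (congrArg (· ∈ UU T 2) ?_).mp (UU T 2).zero_mem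
        funext i
        exact Rat.cast_zero.symm
      | add z z' _ _ h2 h3 =>
        refine (congrArg (· ∈ UU T 2) ?_).mp ((UU T 2).add_mem h2 h3)
        funext i
        exact (Rat.cast_add _ _).symm
      | smul q z _ h2 =>
        refine (congrArg (· ∈ UU T 2) ?_).mp ((UU T 2).smul_mem (q : ℂ) h2)
        funext i
        exact (Rat.cast_mul _ _).symm
    refine (congrArg (· ∈ UU T 2) ?_).mp (key _ h1)
    funext j
    by_cases hj : j = i
    · subst hj
      rw [Pi.single_eq_same, Pi.single_eq_same, Rat.cast_one]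
    · rw [Pi.single_eq_of_ne hj, Pi.single_eq_of_ne hj, Rat.cast_zero]
  | succ k hk ih =>
    refine hsuf (k + 1) (fun i => ?_) t
    obtain ⟨v, hv, hv0⟩ := exists_hom h i
    have hv0' : (v (a i) : ℂ) ≠ 0 := Rat.cast_ne_zero.2 hv0
    obtain ⟨η, h1, h2, h3⟩ := ih (Pi.single i (1 / (v (a i) : ℂ)))
    obtain ⟨η', h4, h5⟩ := hN v hv
    have h6 := LL_br h3 h5
    rw [BL_comm] at h6
    refine ⟨_, fun j r hr => ?_, fun j => ?_, h6⟩
    · change (if 2 ≤ r then _ else _) = _
      split_ifs with h7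
      · rw [h1 j (r - 1) (by omega), mul_zero]
        change 0 - (0 : Fin m → ℂ) j * _ = 0
        rw [Pi.zero_apply, zero_mul, sub_zero]
      · rfl
    · change (if 2 ≤ k + 1 then _ else _) = _
      rw [if_pos (by omega)]
      change (v (a j) : ℂ) * η j (k + 1 - 1) - (0 : Fin m → ℂ) j * _ = _
      rw [Nat.add_sub_cancel, h2, Pi.zero_apply, zero_mul, sub_zero]
      by_cases hj : j = i
      · subst hj
        rw [Pi.single_eq_same, Pi.single_eq_same, mul_one_div_cancel hv0']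
      · rw [Pi.single_eq_of_ne hj, Pi.single_eq_of_ne hj, mul_zero]

/-- the elements of degree at least two -/
theorem lie_two (hT : IsSubtorsor QB T) (hP : BP n (2 * Real.pi * Complex.I) l y ∈ T) (hy : ∀ i, y i 1 = l' i)
    {a b : Fin m → ℂ} (hl : ∀ i, Complex.exp (l i) = a i) (hl' : ∀ i, Complex.exp (l' i) = b i)
    (ha : ∀ i, IsAlgebraic ℚ (a i)) (hb : ∀ i, IsAlgebraic ℚ (b i)) (h : WedgeInd a b) {η : Fin m → ℕ → ℂ}
    (hη : ∀ i, η i 1 = 0) : fl (BL n 0 0 η) ∈ LL T := by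
  have key : ∀ d k : ℕ, 2 ≤ k → n + 1 ≤ k + d → ∀ η : Fin m → ℕ → ℂ, (∀ i r, 1 ≤ r → r < k → η i r = 0) →
      fl (BL n 0 0 η) ∈ LL T := by
    intro d
    induction d with
    | zero =>
      intro k hk hd η hη
      have h1 : BL n 0 (0 : Fin m → ℂ) η = 0 := by
        rw [← BL_zero]
        unfold BL
        congr 1
        funext i
        ext s r
        rw [Matrix.of_apply, Matrix.of_apply]
        unfold len
        split_ifs with h2 h3
        · rfl
        · rw [hη i r (by omega) (by omega)]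
          rfl
        · rfl
        · rfl
        · rfl
      rw [h1, fl_zero]
      exact (LL T).zero_mem
    | succ d ih =>
      intro k hk hd η hη
      obtain ⟨η', h1, h2, h3⟩ := UU_top hT hP hy hl hl' ha hb h k hk (fun i => η i k)
      have h4 := ih (k + 1) (by omega) (by omega) (η - η') (by
        intro i r hr1 hr2
        rw [Pi.sub_apply, Pi.sub_apply]
        rcases Nat.lt_or_ge r k with h5 | h5
        · rw [hη i r hr1 h5, h1 i r h5, sub_zero]
        · obtain rfl : r = k := by omega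
          rw [h2, sub_self])
      have h5 := (LL T).add_mem h4 h3
      rw [← fl_add, BL_add, add_zero, add_zero, sub_add_cancel] at h5
      exact h5
  refine key n 2 le_rfl (by omega) η fun i r h1 h2 => ?_
  obtain rfl : r = 1 := by omega
  exact hη i

/-- **The Lie algebra is as large as possible.** -/
theorem lie_all (hT : IsSubtorsor QB T) (hP : BP n (2 * Real.pi * Complex.I) l y ∈ T) (hy : ∀ i, y i 1 = l' i)
    {a b : Fin m → ℂ} (hl : ∀ i, Complex.exp (l i) = a i) (hl' : ∀ i, Complex.exp (l' i) = b i)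
    (ha : ∀ i, IsAlgebraic ℚ (a i)) (hb : ∀ i, IsAlgebraic ℚ (b i)) (h : WedgeInd a b) {c : ℂ} {ξ : Fin m → ℂ}
    {η : Fin m → ℕ → ℂ} (hR : Rel l l' c ξ fun i => η i 1) : fl (BL n c ξ η) ∈ LL T := by
  obtain ⟨η', h1, h2⟩ := lie_mem hT hP hy (fun i => by rw [hl]; exact ha i) (fun i => by rw [hl']; exact hb i) hR
  have h3 := lie_two hT hP hy hl hl' ha hb h (η := η - η') (fun i => by
    rw [Pi.sub_apply, Pi.sub_apply, h1, sub_self])
  have h4 := (LL T).add_mem h3 h2
  rw [← fl_add, BL_add, zero_add, zero_add, sub_add_cancel] at h4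
  exact h4

end Pool.Agent.X306.PL
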