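import Pool.Agent.X306.PL.Lie

set_option autoImplicit false
set_option linter.unusedVariables false
set_option linter.unusedSectionVars false
set_option linter.unusedSimpArgs false

/-!
# Subtorsors for polylogarithm motives
-/

open Matrix Module

noncomputable section

namespace Pool.Agent.X306.PL

open Pool.Agent.W516.DR Pool.Agent.W245.EB Pool.Agent.Y102
open Pool.Agent.TH127.PT Pool.Agent.TH119.MX Pool.Agent.TH119.DR Pool.Agent.Y123.ST
open Pool.Agent.X306.EM (QB_iff)
open Pool.Agent.X306.RL (LL_br derD)

variable {m n : ℕ} {T : Set (Matrix (Fin (n + 1) × Fin m) (Fin (n + 1) × Fin m) ℂ)}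

/-- integral curves -/
theorem flow (hT : IsSubtorsor QB T) {c : ℂ} {ξ : Fin m → ℂ} {η : Fin m → ℕ → ℂ} (hE : fl (BL n c ξ η) ∈ LL T)
    (u M : Polynomial ℂ) (X : Fin m → Polynomial ℂ) (Y : Fin m → ℕ → Polynomial ℂ)
    (hM : u * Polynomial.derivative M = Polynomial.C c * M)
    (hX : ∀ i, u * Polynomial.derivative (X i) = Polynomial.C (ξ i) * M)
    (hY : ∀ i r, 1 ≤ r → r ≤ n → u * Polynomial.derivative (Y i r) =
      ∑ k ∈ Finset.Icc 1 r, Polynomial.C (η i k) * ent M (X i) (Y i) k r) {a s : ℂ} (ha : u.eval a ≠ 0)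
    (hP : BP n (M.eval a) (fun i => (X i).eval a) (fun i r => (Y i r).eval a) ∈ T) (hs : M.eval s ≠ 0) :
    BP n (M.eval s) (fun i => (X i).eval s) (fun i r => (Y i r).eval s) ∈ T := by
  let G : Matrix (Fin (n + 1) × Fin m) (Fin (n + 1) × Fin m) (Polynomial ℂ) :=
    blockDiagonal fun i => Matrix.of fun s r : Fin (n + 1) => ent M (X i) (Y i) s r
  have hG : ∀ a : ℂ, G.map (Polynomial.eval a) =
      BP n (M.eval a) (fun i => (X i).eval a) (fun i r => (Y i r).eval a) := by
    intro a
    unfold BP
    rw [show G = blockDiagonal fun i => Matrix.of fun s r : Fin (n + 1) => ent M (X i) (Y i) s r from rfl,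
      blockDiagonal_map _ _ Polynomial.eval_zero]
    congr 1
    funext i
    ext s r
    rw [Matrix.map_apply, Matrix.of_apply, Matrix.of_apply]
    exact ent_map (Polynomial.evalRingHom a) M (X i) (Y i) s r
  rw [← hG] at hP ⊢
  refine path_mem hT hE u ha G ?_ hP (by
    rw [hG]
    exact BP_unit hs _ _)
  let d : Derivation ℚ (Polynomial ℂ) (Polynomial ℂ) := (u • Polynomial.derivative').restrictScalars ℚ
  have hd : ∀ p, d p = u * Polynomial.derivative p := fun p => rfl
  intro b b'
  have h1 : ∑ k, Polynomial.C (BL n c ξ η b k) * G k b' = ((BL n c ξ η).map Polynomial.C * G) b b' := by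
    rw [Matrix.mul_apply]
    rfl
  rw [h1]
  have h2 : (BL n c ξ η).map Polynomial.C * G = blockDiagonal fun i => Matrix.of fun s r : Fin (n + 1) =>
      ∑ k : Fin (n + 1), len (Polynomial.C c) (Polynomial.C (ξ i)) (fun k => Polynomial.C (η i k)) s k *
        ent M (X i) (Y i) k r := by
    rw [show G = blockDiagonal fun i => Matrix.of fun s r : Fin (n + 1) => ent M (X i) (Y i) s r from rfl]
    unfold BL
    rw [blockDiagonal_map _ _ (map_zero Polynomial.C), ← blockDiagonal_mul]
    congr 1
    funext i
    ext1 s r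
    rw [Matrix.mul_apply, Matrix.of_apply]
    refine Finset.sum_congr rfl fun k _ => ?_
    rw [Matrix.map_apply, Matrix.of_apply, Matrix.of_apply, len_map]
  rw [h2]
  change u * Polynomial.derivative (if b.2 = b'.2 then _ else 0) = if b.2 = b'.2 then _ else 0
  split_ifs with h3
  · change d (ent M (X b.2) (Y b.2) b.1 b'.1) = _
    exact der_ent d hM (hX _) (hY _) (by omega) (by omega)
  · rw [Polynomial.derivative_zero, mul_zero]

variable {l l' : Fin m → ℂ} {y : Fin m → ℕ → ℂ}

theorem ent_diag (μ x : ℂ) (y : ℕ → ℂ) {r : ℕ} (hr : 1 ≤ r) : ent μ x y r r = μ ^ r := by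
  rw [ent_pos _ _ _ hr le_rfl, Nat.sub_self, Nat.factorial_zero, Nat.cast_one, div_one, one_smul, pow_zero, mul_one]

theorem ent_indep {R : Type*} [CommRing R] [Algebra ℚ R] (μ x : R) (y y' : ℕ → R) {s r : ℕ} (hs : 1 ≤ s) :
    ent μ x y s r = ent μ x y' s r := by
  have h : ¬ s = 0 := by omega
  unfold ent
  rw [if_neg h, if_neg h]

theorem ent_scale (ρ : ℂ) (y : ℕ → Polynomial ℂ) (y' : ℕ → ℂ) {s r : ℕ} (hs : 1 ≤ s) :
    ent (Polynomial.X : Polynomial ℂ) (Polynomial.C ρ * Polynomial.X) y s r =
      Polynomial.X ^ r * Polynomial.C (ent 1 ρ y' s r) := by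
  rcases lt_or_ge r s with h | h
  · rw [ent_gt _ _ _ h, ent_gt _ _ _ h, map_zero, mul_zero]
  · rw [ent_pos _ _ _ hs h, ent_pos _ _ _ hs h, one_pow, one_mul]
    have h1 : (Polynomial.X : Polynomial ℂ) ^ r = Polynomial.X ^ s * Polynomial.X ^ (r - s) := by
      rw [← pow_add]
      congr 1
      omega
    rw [h1, mul_pow, ← map_pow]
    have h2 : ∀ (q : ℚ) (z : ℂ), Polynomial.C (q • z) = q • Polynomial.C z := by
      intro q z
      rw [Rat.smul_def, Polynomial.C_mul, Algebra.smul_def]
      rfl
    rw [h2, mul_smul_comm]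
    congr 1
    ring

/-- **The conclusion.** -/
theorem main (hT : IsSubtorsor QB T) (hP : BP n (2 * Real.pi * Complex.I) l y ∈ T) (hy : ∀ i, y i 1 = l' i)
    {a b : Fin m → ℂ} (hl : ∀ i, Complex.exp (l i) = a i) (hl' : ∀ i, Complex.exp (l' i) = b i)
    (ha : ∀ i, IsAlgebraic ℚ (a i)) (hb : ∀ i, IsAlgebraic ℚ (b i)) (h : WedgeInd a b) {μ : ℂ} (hμ : μ ≠ 0)
    {x : Fin m → ℂ} {z : Fin m → ℕ → ℂ} (hR : Rel l l' μ x fun i => z i 1) : BP n μ x z ∈ T := by
  have hw : (2 * Real.pi * Complex.I : ℂ) ≠ 0 := Complex.two_pi_I_ne_zero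
  -- changing the coordinates of degree at least two
  have step2 : ∀ (μ : ℂ) (x : Fin m → ℂ) (z z' : Fin m → ℕ → ℂ), μ ≠ 0 → (∀ i, z i 1 = z' i 1) → BP n μ x z ∈ T →
      BP n μ x z' ∈ T := by
    intro μ x z z' hμ hz hP
    choose η hη using fun i => solve (b := ent μ (x i) (z i)) (fun r hr => by
      rw [ent_diag _ _ _ hr]
      exact pow_ne_zero _ hμ) (fun r => z' i r - z i r) (n + 1)
    have hη1 : ∀ i, η i 1 = 0 := by
      intro i
      have h1 := hη i 1 le_rfl (by omega)
      rw [Finset.Icc_self, Finset.sum_singleton, ent_diag _ _ _ le_rfl, pow_one, hz, sub_self] at h1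
      exact (mul_eq_zero.1 h1).resolve_right hμ
    have hE := lie_two hT ‹BP n (2 * Real.pi * Complex.I) l y ∈ T› hy hl hl' ha hb h hη1
    have h1 := flow hT hE 1 (Polynomial.C μ) (fun i => Polynomial.C (x i))
      (fun i r => Polynomial.C (z i r) + Polynomial.C (z' i r - z i r) * Polynomial.X) (a := 0) (s := 1)
      (by rw [Polynomial.derivative_C, map_zero, mul_zero, zero_mul])
      (fun i => by rw [Polynomial.derivative_C, Pi.zero_apply, map_zero, mul_zero, zero_mul])
      (fun i r h1 h2 => by
        rw [one_mul, Polynomial.derivative_add, Polynomial.derivative_C, zero_add, Polynomial.derivative_C_mul,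
          Polynomial.derivative_X, mul_one, ← hη i r h1 (by omega), map_sum]
        refine Finset.sum_congr rfl fun k hk => ?_
        rw [Finset.mem_Icc] at hk
        rw [map_mul]
        congr 1
        rw [ent_map Polynomial.C μ (x i) (z i) k r]
        exact ent_indep _ _ _ _ hk.1)
      (by rw [Polynomial.eval_one]; exact one_ne_zero)
      (by simpa using hP) (by rw [Polynomial.eval_C]; exact hμ)
    refine (congrArg (· ∈ T) ?_).mp h1
    congr 1
    · rw [Polynomial.eval_C]
    · funext i
      rw [Polynomial.eval_C]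
    · funext i r
      rw [Polynomial.eval_add, Polynomial.eval_C, Polynomial.eval_mul, Polynomial.eval_C, Polynomial.eval_X]
      ring
  -- changing the other coordinates
  have step1 : ∀ (μ : ℂ) (x x' : Fin m → ℂ) (z z' : Fin m → ℕ → ℂ), μ ≠ 0 →
      Rel l l' 0 (fun i => (x' i - x i) / μ) (fun i => (z' i 1 - z i 1) / μ) → BP n μ x z ∈ T → BP n μ x' z' ∈ T := by
    intro μ x x' z z' hμ hR hP
    have hE := lie_all hT ‹BP n (2 * Real.pi * Complex.I) l y ∈ T› hy hl hl' ha hb h
      (η := fun i r => if r = 1 then (z' i 1 - z i 1) / μ else 0) hR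
    choose Y hY1 hY2 using fun (i : Fin m) (r : ℕ) => exists_anti (∑ k ∈ Finset.Icc 1 r,
      Polynomial.C (if k = 1 then (z' i 1 - z i 1) / μ else 0) *
        ent (Polynomial.C μ) (Polynomial.C (x i) + Polynomial.C (x' i - x i) * Polynomial.X) 0 k r) (z i r)
    have h1 := flow hT hE 1 (Polynomial.C μ) (fun i => Polynomial.C (x i) + Polynomial.C (x' i - x i) * Polynomial.X)
      Y (a := 0) (s := 1)
      (by rw [Polynomial.derivative_C, map_zero, mul_zero, zero_mul])
      (fun i => by
        rw [one_mul, Polynomial.derivative_add, Polynomial.derivative_C, zero_add, Polynomial.derivative_C_mul,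
          Polynomial.derivative_X, mul_one, ← map_mul, div_mul_cancel₀ _ hμ])
      (fun i r h1 h2 => by
        rw [one_mul, hY1]
        refine Finset.sum_congr rfl fun k hk => ?_
        rw [Finset.mem_Icc] at hk
        rw [ent_indep _ _ _ (Y i) hk.1])
      (by rw [Polynomial.eval_one]; exact one_ne_zero)
      (by
        refine (congrArg (· ∈ T) ?_).mp hP
        congr 1
        · rw [Polynomial.eval_C]
        · funext i
          simp
        · funext i r
          rw [hY2]) (by rw [Polynomial.eval_C]; exact hμ)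
    refine step2 μ x' (fun i r => (Y i r).eval 1) z' hμ (fun i => ?_) ((congrArg (· ∈ T) ?_).mp h1)
    · have h2 : Y i 1 = Polynomial.C (z i 1) + Polynomial.C (z' i 1 - z i 1) * Polynomial.X := by
        have h3 : Polynomial.derivative (Y i 1 - Polynomial.C (z' i 1 - z i 1) * Polynomial.X) = 0 := by
          rw [Polynomial.derivative_sub, hY1, Finset.Icc_self, Finset.sum_singleton, if_pos rfl,
            Polynomial.derivative_C_mul, Polynomial.derivative_X, mul_one,
            ent_pos _ _ _ le_rfl le_rfl, Nat.sub_self, Nat.factorial_zero, Nat.cast_one, div_one, one_smul, pow_zero,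
            mul_one, pow_one, ← map_mul, div_mul_cancel₀ _ hμ, sub_self]
        have h4 := Polynomial.eq_C_of_natDegree_eq_zero (Polynomial.derivative_eq_zero.1 h3)
        have h5 := congrArg (Polynomial.eval 0) h4
        rw [Polynomial.eval_sub, hY2, Polynomial.eval_mul, Polynomial.eval_X, mul_zero, sub_zero,
          Polynomial.eval_C] at h5
        rw [← h5] at h4
        rw [← h4]
        ring
      rw [h2, Polynomial.eval_add, Polynomial.eval_C, Polynomial.eval_mul, Polynomial.eval_C, Polynomial.eval_X]
      ring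
    · congr 1
      · rw [Polynomial.eval_C]
      · funext i
        rw [Polynomial.eval_add, Polynomial.eval_C, Polynomial.eval_mul, Polynomial.eval_C, Polynomial.eval_X]
        ring
  -- a normal form
  set w : ℂ := 2 * Real.pi * Complex.I with hwd
  have h1 : BP n w (fun i => (l i / w) * w) (fun i r => if r = 1 then (l' i / w) * w else 0) ∈ T := by
    refine step2 w _ y _ hw (fun i => ?_) ((congrArg (· ∈ T) ?_).mp hP)
    · rw [hy, if_pos rfl, div_mul_cancel₀ _ hw]
    · congr 1
      funext i
      rw [div_mul_cancel₀ _ hw]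
  -- changing `2 π i`
  have h2 : BP n μ (fun i => (l i / w) * μ) (fun i r => if r = 1 then (l' i / w) * μ else 0) ∈ T := by
    choose η hη using fun i => solve (b := ent 1 (l i / w) 0) (fun r hr => by
      rw [ent_diag _ _ _ hr, one_pow]
      exact one_ne_zero) (fun r => if r = 1 then l' i / w else 0) (n + 1)
    have hη1 : ∀ i, η i 1 = l' i / w := by
      intro i
      have h1 := hη i 1 le_rfl (by omega)
      rw [Finset.Icc_self, Finset.sum_singleton, ent_diag _ _ _ le_rfl, pow_one, mul_one, if_pos rfl] at h1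
      exact h1
    have hE := lie_all hT hP hy hl hl' ha hb h (c := 1) (ξ := fun i => l i / w) (η := η) (by
      intro p q k h3
      simp only [hη1]
      rw [← hwd] at h3
      have h4 : ∑ i, (p i : ℂ) * (l i / w) + ∑ i, (q i : ℂ) * (l' i / w) =
          (∑ i, (p i : ℂ) * l i + ∑ i, (q i : ℂ) * l' i) / w := by
        rw [add_div, Finset.sum_div, Finset.sum_div]
        congr 1
        · exact Finset.sum_congr rfl fun i _ => by ring
        · exact Finset.sum_congr rfl fun i _ => by ring
      rw [h4, h3, mul_div_assoc, div_self hw])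
    have h5 := flow hT hE Polynomial.X Polynomial.X (fun i => Polynomial.C (l i / w) * Polynomial.X)
      (fun i r => if r = 1 then Polynomial.C (l' i / w) * Polynomial.X else 0) (a := w) (s := μ)
      (by rw [Polynomial.derivative_X, map_one, one_mul, mul_one])
      (fun i => by
        rw [Polynomial.derivative_C_mul, Polynomial.derivative_X, mul_one, mul_comm])
      (fun i r h1 h2 => by
        have h3 : ∑ k ∈ Finset.Icc 1 r, Polynomial.C (η i k) * ent (Polynomial.X : Polynomial ℂ)
            (Polynomial.C (l i / w) * Polynomial.X)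
            (fun r => if r = 1 then Polynomial.C (l' i / w) * Polynomial.X else 0) k r =
            Polynomial.X ^ r * Polynomial.C (if r = 1 then l' i / w else 0) := by
          rw [← hη i r h1 (by omega), map_sum, Finset.mul_sum]
          refine Finset.sum_congr rfl fun k hk => ?_
          rw [Finset.mem_Icc] at hk
          rw [ent_scale _ _ 0 hk.1, map_mul]
          ring
        rw [h3]
        split_ifs with h4
        · subst h4
          rw [Polynomial.derivative_C_mul, Polynomial.derivative_X, mul_one, pow_one]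
        · rw [Polynomial.derivative_zero, mul_zero, map_zero, mul_zero])
      (by rw [Polynomial.eval_X]; exact hw)
      (by
        refine (congrArg (· ∈ T) ?_).mp h1
        congr 1
        · rw [Polynomial.eval_X]
        · funext i
          rw [Polynomial.eval_mul, Polynomial.eval_C, Polynomial.eval_X]
        · funext i r
          split_ifs
          · rw [Polynomial.eval_mul, Polynomial.eval_C, Polynomial.eval_X]
          · rw [Polynomial.eval_zero]) (by rw [Polynomial.eval_X]; exact hμ)
    refine (congrArg (· ∈ T) ?_).mp h5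
    congr 1
    · rw [Polynomial.eval_X]
    · funext i
      rw [Polynomial.eval_mul, Polynomial.eval_C, Polynomial.eval_X]
    · funext i r
      split_ifs
      · rw [Polynomial.eval_mul, Polynomial.eval_C, Polynomial.eval_X]
      · rw [Polynomial.eval_zero]
  refine step1 μ _ x _ z hμ ?_ h2
  intro p q k h3
  have h4 := hR p q k h3
  rw [mul_zero]
  simp only [if_true]
  rw [← hwd] at h3
  have h5 : ∑ i, (p i : ℂ) * ((x i - l i / w * μ) / μ) + ∑ i, (q i : ℂ) * ((z i 1 - l' i / w * μ) / μ) =
      (∑ i, (p i : ℂ) * x i + ∑ i, (q i : ℂ) * z i 1) / μ - (∑ i, (p i : ℂ) * l i + ∑ i, (q i : ℂ) * l' i) / w := by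
    rw [add_div, add_div, Finset.sum_div, Finset.sum_div, Finset.sum_div, Finset.sum_div]
    rw [add_sub_add_comm, ← Finset.sum_sub_distrib, ← Finset.sum_sub_distrib]
    congr 1
    · refine Finset.sum_congr rfl fun i _ => ?_
      field_simp
    · refine Finset.sum_congr rfl fun i _ => ?_
      field_simp
  rw [h5, h3, h4, mul_div_assoc, mul_div_assoc, div_self hμ, div_self hw, sub_self]

end Pool.Agent.X306.PL
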