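import Mathlib

set_option autoImplicit false
set_option linter.unusedVariables false
set_option linter.unusedSectionVars false
set_option linter.unusedSimpArgs false

/-!
# The matrices of polylogarithm motives
-/

open Matrix

noncomputable section

namespace Pool.Agent.X306.PL

section gen

variable {R : Type*} [CommRing R] [Algebra ℚ R]

/-- the entries of the period matrices -/
def ent (μ x : R) (y : ℕ → R) (s r : ℕ) : R :=
  if s = 0 then (if r = 0 then 1 else y r)
  else if s ≤ r then ((1 : ℚ) / ((r - s).factorial : ℚ)) • (μ ^ s * x ^ (r - s)) else 0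

/-- the entries of the elements of the Lie algebra -/
def len (c ξ : R) (η : ℕ → R) (s r : ℕ) : R :=
  if s = 0 then (if r = 0 then 0 else η r) else if r = s then c * (s : R) else if r = s + 1 then ξ else 0

theorem ent_gt (μ x : R) (y : ℕ → R) {s r : ℕ} (h : r < s) : ent μ x y s r = 0 := by
  unfold ent
  rw [if_neg (by omega), if_neg (by omega)]

theorem ent_pos (μ x : R) (y : ℕ → R) {s r : ℕ} (h : 1 ≤ s) (h' : s ≤ r) :
    ent μ x y s r = ((1 : ℚ) / ((r - s).factorial : ℚ)) • (μ ^ s * x ^ (r - s)) := by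
  unfold ent
  rw [if_neg (by omega), if_pos h']

theorem sum_zero {n : ℕ} (c ξ : R) (η : ℕ → R) (μ x : R) (y : ℕ → R) {r : ℕ} (hr : r ≤ n) :
    ∑ k : Fin (n + 1), len c ξ η 0 k * ent μ x y k r =
      if r = 0 then 0 else ∑ k ∈ Finset.Icc 1 r, η k * ent μ x y k r := by
  rw [Fin.sum_univ_eq_sum_range (fun k => len c ξ η 0 k * ent μ x y k r) (n + 1)]
  split_ifs with h
  · subst h
    refine Finset.sum_eq_zero fun k _ => ?_
    rcases Nat.eq_zero_or_pos k with h | h
    · subst h
      unfold len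
      rw [if_pos rfl, if_pos rfl, zero_mul]
    · rw [ent_gt _ _ _ h, mul_zero]
  · rw [← Finset.sum_subset (s₁ := Finset.Icc 1 r) (s₂ := Finset.range (n + 1))]
    · refine Finset.sum_congr rfl fun k hk => ?_
      rw [Finset.mem_Icc] at hk
      unfold len
      rw [if_pos rfl, if_neg (by omega)]
    · intro k hk
      rw [Finset.mem_Icc] at hk
      rw [Finset.mem_range]
      omega
    · intro k hk hk'
      rw [Finset.mem_Icc] at hk'
      rcases Nat.eq_zero_or_pos k with h1 | h1
      · subst h1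
        unfold len
        rw [if_pos rfl, if_pos rfl, zero_mul]
      · rw [ent_gt _ _ _ (by omega), mul_zero]

theorem sum_pos {n : ℕ} (c ξ : R) (η : ℕ → R) (μ x : R) (y : ℕ → R) {s r : ℕ} (hs1 : 1 ≤ s) (hs : s ≤ n)
    (hr : r ≤ n) : ∑ k : Fin (n + 1), len c ξ η s k * ent μ x y k r =
      c * (s : R) * ent μ x y s r + ξ * ent μ x y (s + 1) r := by
  rw [Fin.sum_univ_eq_sum_range (fun k => len c ξ η s k * ent μ x y k r) (n + 1)]
  have h1 : ∀ k, len c ξ η s k * ent μ x y k r =
      (if k = s then c * (s : R) * ent μ x y s r else 0) + (if k = s + 1 then ξ * ent μ x y (s + 1) r else 0) := by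
    intro k
    unfold len
    rw [if_neg (by omega)]
    by_cases h2 : k = s
    · subst h2
      rw [if_pos rfl, if_pos rfl, if_neg (by omega), add_zero]
    · rw [if_neg h2, if_neg h2, zero_add]
      by_cases h3 : k = s + 1
      · subst h3
        rw [if_pos rfl, if_pos rfl]
      · rw [if_neg h3, if_neg h3, zero_mul]
  rw [Finset.sum_congr rfl fun k _ => h1 k, Finset.sum_add_distrib, Finset.sum_ite_eq', Finset.sum_ite_eq',
    if_pos (Finset.mem_range.2 (by omega))]
  congr 1
  split_ifs with h2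
  · rfl
  · rw [Finset.mem_range] at h2
    rw [ent_gt _ _ _ (by omega), mul_zero]

theorem der_pos (d : Derivation ℚ R R) {μ x : R} (y : ℕ → R) {c ξ : R} (hμ : d μ = c * μ) (hx : d x = ξ * μ)
    {s r : ℕ} (hs : 1 ≤ s) : d (ent μ x y s r) = c * (s : R) * ent μ x y s r + ξ * ent μ x y (s + 1) r := by
  rcases lt_or_ge r s with h | h
  · rw [ent_gt _ _ _ h, ent_gt _ _ _ (show r < s + 1 by omega), map_zero, mul_zero, mul_zero, add_zero]
  · obtain ⟨k, rfl⟩ := Nat.exists_eq_add_of_le h
    obtain ⟨t, rfl⟩ := Nat.exists_eq_add_of_le hs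
    rw [ent_pos _ _ _ hs h]
    have h1 : 1 + t + k - (1 + t) = k := by omega
    rw [h1, Derivation.map_smul, Derivation.leibniz, Derivation.leibniz_pow, Derivation.leibniz_pow, hμ, hx]
    have h2 : 1 + t - 1 = t := by omega
    rw [h2]
    rcases Nat.eq_zero_or_pos k with hk | hk
    · subst hk
      rw [ent_gt _ _ _ (show 1 + t + 0 < 1 + t + 1 by omega)]
      simp only [Nat.factorial_zero, Nat.cast_one, div_one, one_smul, pow_zero, zero_smul, smul_zero, smul_eq_mul,
        nsmul_eq_mul, mul_zero, mul_one, add_zero, zero_add, Nat.cast_zero, zero_mul, one_mul]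
      rw [pow_add, pow_one]
      push_cast
      ring
    · obtain ⟨j, rfl⟩ := Nat.exists_eq_add_of_le hk
      rw [ent_pos _ _ _ (show 1 ≤ 1 + t + 1 by omega) (show 1 + t + 1 ≤ 1 + t + (1 + j) by omega)]
      have h3 : 1 + t + (1 + j) - (1 + t + 1) = j := by omega
      have h4 : 1 + j - 1 = j := by omega
      rw [h3, h4]
      have h5 : ((1 : ℚ) / (j.factorial : ℚ)) = ((1 : ℚ) / ((1 + j).factorial : ℚ)) * ((1 + j : ℕ) : ℚ) := by
        rw [add_comm 1 j, Nat.factorial_succ]
        have : (j.factorial : ℚ) ≠ 0 := Nat.cast_ne_zero.2 (Nat.factorial_ne_zero j)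
        have h6 : ((j + 1 : ℕ) : ℚ) ≠ 0 := Nat.cast_ne_zero.2 (Nat.succ_ne_zero j)
        push_cast at h6 ⊢
        field_simp
      rw [h5, mul_smul]
      have h6 : ∀ z : R, (((1 + j : ℕ) : ℚ)) • z = ((1 + j : ℕ) : R) * z := by
        intro z
        rw [Algebra.smul_def, map_natCast]
      rw [h6, mul_smul_comm, mul_smul_comm, ← smul_add]
      congr 1
      simp only [smul_eq_mul, nsmul_eq_mul]
      rw [pow_add μ 1 t, pow_add μ (1 + t) 1, pow_one, pow_add μ 1 t, pow_one]
      rw [pow_add x 1 j, pow_one]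
      push_cast
      ring

/-- the logarithmic derivative of a period matrix -/
theorem der_ent {n : ℕ} (d : Derivation ℚ R R) {μ x : R} {y : ℕ → R} {c ξ : R} {η : ℕ → R} (hμ : d μ = c * μ)
    (hx : d x = ξ * μ) (hy : ∀ r, 1 ≤ r → r ≤ n → d (y r) = ∑ k ∈ Finset.Icc 1 r, η k * ent μ x y k r) {s r : ℕ}
    (hs : s ≤ n) (hr : r ≤ n) : d (ent μ x y s r) = ∑ k : Fin (n + 1), len c ξ η s k * ent μ x y k r := by
  rcases Nat.eq_zero_or_pos s with h | h
  · subst h
    rw [sum_zero c ξ η μ x y hr]
    split_ifs with h1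
    · subst h1
      have h2 : ent μ x y 0 0 = 1 := by
        unfold ent
        rw [if_pos rfl, if_pos rfl]
      rw [h2]
      exact d.map_one_eq_zero
    · have h2 : ent μ x y 0 r = y r := by
        unfold ent
        rw [if_pos rfl, if_neg h1]
      rw [h2, hy r (by omega) hr]
  · rw [sum_pos c ξ η μ x y h hs hr, der_pos d y hμ hx h]

theorem len_map {S : Type*} [CommRing S] (f : R →+* S) (c ξ : R) (η : ℕ → R) (s r : ℕ) :
    f (len c ξ η s r) = len (f c) (f ξ) (fun k => f (η k)) s r := by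
  unfold len
  split_ifs <;> simp

theorem ent_map {S : Type*} [CommRing S] [Algebra ℚ S] (f : R →+* S) (μ x : R) (y : ℕ → R) (s r : ℕ) :
    f (ent μ x y s r) = ent (f μ) (f x) (fun k => f (y k)) s r := by
  unfold ent
  split_ifs
  · exact map_one f
  · rfl
  · rw [Algebra.smul_def, Algebra.smul_def, map_mul, map_mul, map_pow, map_pow]
    congr 1
    exact RingHom.congr_fun (RingHom.ext_rat (f.comp (algebraMap ℚ R)) (algebraMap ℚ S)) _
  · exact map_zero f

end gen

/-- triangular systems -/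
theorem solve {b : ℕ → ℕ → ℂ} (hb : ∀ r, 1 ≤ r → b r r ≠ 0) (w : ℕ → ℂ) (n : ℕ) :
    ∃ η : ℕ → ℂ, ∀ r, 1 ≤ r → r ≤ n → ∑ k ∈ Finset.Icc 1 r, η k * b k r = w r := by
  induction n with
  | zero => exact ⟨0, fun r h1 h2 => absurd h1 (by omega)⟩
  | succ n ih =>
    obtain ⟨η, hη⟩ := ih
    refine ⟨Function.update η (n + 1) ((w (n + 1) - ∑ k ∈ Finset.Icc 1 n, η k * b k (n + 1)) / b (n + 1) (n + 1)),
      fun r h1 h2 => ?_⟩
    rcases Nat.lt_or_ge r (n + 1) with h3 | h3
    · rw [← hη r h1 (by omega)]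
      refine Finset.sum_congr rfl fun k hk => ?_
      rw [Finset.mem_Icc] at hk
      rw [Function.update_of_ne (by omega)]
    · obtain rfl : r = n + 1 := by omega
      rw [Finset.sum_Icc_succ_top h1, Function.update_self, div_mul_cancel₀ _ (hb _ h1)]
      have h4 : ∑ k ∈ Finset.Icc 1 n, Function.update η (n + 1)
          ((w (n + 1) - ∑ k ∈ Finset.Icc 1 n, η k * b k (n + 1)) / b (n + 1) (n + 1)) k * b k (n + 1) =
          ∑ k ∈ Finset.Icc 1 n, η k * b k (n + 1) := by
        refine Finset.sum_congr rfl fun k hk => ?_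
        rw [Finset.mem_Icc] at hk
        rw [Function.update_of_ne (by omega)]
      rw [h4]
      ring

variable {m n : ℕ}

/-- the period matrix -/
def BP (n : ℕ) (μ : ℂ) (x : Fin m → ℂ) (y : Fin m → ℕ → ℂ) : Matrix (Fin (n + 1) × Fin m) (Fin (n + 1) × Fin m) ℂ :=
  blockDiagonal fun i => Matrix.of fun s r : Fin (n + 1) => ent μ (x i) (y i) s r

/-- the elements of the Lie algebra -/
def BL (n : ℕ) (c : ℂ) (ξ : Fin m → ℂ) (η : Fin m → ℕ → ℂ) : Matrix (Fin (n + 1) × Fin m) (Fin (n + 1) × Fin m) ℂ :=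
  blockDiagonal fun i => Matrix.of fun s r : Fin (n + 1) => len c (ξ i) (η i) s r

theorem BP_unit {μ : ℂ} (hμ : μ ≠ 0) (x : Fin m → ℂ) (y : Fin m → ℕ → ℂ) : IsUnit (BP n μ x y) := by
  rw [Matrix.isUnit_iff_isUnit_det]
  unfold BP
  rw [det_blockDiagonal, isUnit_iff_ne_zero, Finset.prod_ne_zero_iff]
  intro i _
  rw [Matrix.det_of_upperTriangular]
  · rw [Finset.prod_ne_zero_iff]
    intro s _
    rw [Matrix.of_apply]
    unfold ent
    split_ifs with h1
    · exact one_ne_zero
    · rw [Nat.sub_self, Nat.factorial_zero, Nat.cast_one, div_one, one_smul, pow_zero, mul_one]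
      exact pow_ne_zero _ hμ
    · exact absurd le_rfl (by assumption)
  · intro s r h
    exact ent_gt _ _ _ h

theorem BL_add (c c' : ℂ) (ξ ξ' : Fin m → ℂ) (η η' : Fin m → ℕ → ℂ) :
    BL n c ξ η + BL n c' ξ' η' = BL n (c + c') (ξ + ξ') (η + η') := by
  unfold BL
  rw [← blockDiagonal_add]
  congr 1
  funext i
  ext s r
  simp only [Pi.add_apply, Matrix.add_apply, Matrix.of_apply]
  unfold len
  split_ifs
  · rw [add_zero]
  · rfl
  · ring
  · rfl
  · rw [add_zero]

theorem BL_smul (a : ℂ) (c : ℂ) (ξ : Fin m → ℂ) (η : Fin m → ℕ → ℂ) :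
    a • BL n c ξ η = BL n (a * c) (a • ξ) (a • η) := by
  unfold BL
  rw [← blockDiagonal_smul]
  congr 1
  funext i
  ext s r
  simp only [Pi.smul_apply, Matrix.smul_apply, Matrix.of_apply, smul_eq_mul]
  unfold len
  split_ifs
  · rw [mul_zero]
  · rfl
  · ring
  · rfl
  · rw [mul_zero]

theorem BL_zero : BL n (0 : ℂ) (0 : Fin m → ℂ) 0 = 0 := by
  have h := BL_smul (n := n) 0 (0 : ℂ) (0 : Fin m → ℂ) 0
  rw [zero_smul, zero_mul, smul_zero, smul_zero] at h
  exact h.symm

theorem BL_map {f : ℂ → ℂ} (hf : f 0 = 0) (hf' : ∀ (z : ℂ) (k : ℕ), f (z * k) = f z * k) (c : ℂ) (ξ : Fin m → ℂ)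
    (η : Fin m → ℕ → ℂ) : (BL n c ξ η).map f = BL n (f c) (fun i => f (ξ i)) (fun i r => f (η i r)) := by
  unfold BL
  rw [blockDiagonal_map _ _ hf]
  congr 1
  funext i
  ext s r
  simp only [Matrix.map_apply, Matrix.of_apply]
  unfold len
  split_ifs
  · exact hf
  · rfl
  · exact hf' _ _
  · rfl
  · exact hf

/-- the commutators -/
theorem BL_comm (ξ ξ' : Fin m → ℂ) (η η' : Fin m → ℕ → ℂ) :
    BL n 0 ξ η * BL n 0 ξ' η' - BL n 0 ξ' η' * BL n 0 ξ η =
      BL n 0 0 fun i r => if 2 ≤ r then ξ' i * η i (r - 1) - ξ i * η' i (r - 1) else 0 := by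
  have key : ∀ (ξ ξ' : ℂ) (η η' : ℕ → ℂ) (s r : ℕ), s ≤ n → r ≤ n →
      ∑ k : Fin (n + 1), len 0 ξ η s k * len 0 ξ' η' k r =
        if s = 0 then (if 2 ≤ r then ξ' * η (r - 1) else 0) else if r = s + 2 then ξ * ξ' else 0 := by
    intro ξ ξ' η η' s r hs hr
    rw [Fin.sum_univ_eq_sum_range (fun k => len 0 ξ η s k * len 0 ξ' η' k r) (n + 1)]
    split_ifs with h1 h2 h2
    · subst h1
      rw [Finset.sum_eq_single (r - 1)]
      · unfold len
        rw [if_pos rfl, if_neg (by omega), if_neg (by omega), if_neg (by omega), if_pos (by omega)]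
        ring
      · intro k _ hk
        unfold len
        rw [if_pos rfl]
        rcases Nat.eq_zero_or_pos k with h3 | h3
        · rw [if_pos h3, zero_mul]
        · rw [if_neg (by omega : ¬ k = 0), if_neg (by omega : ¬ k = 0), zero_mul]
          split_ifs with h4 h5
          · rw [mul_zero]
          · exact absurd h5 (by omega)
          · rw [mul_zero]
      · intro h
        rw [Finset.mem_range] at h
        exact absurd (by omega) h
    · subst h1
      refine Finset.sum_eq_zero fun k _ => ?_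
      unfold len
      rw [if_pos rfl]
      rcases Nat.eq_zero_or_pos k with h3 | h3
      · rw [if_pos h3, zero_mul]
      · rw [if_neg (by omega : ¬ k = 0), if_neg (by omega : ¬ k = 0), zero_mul]
        split_ifs with h4 h5
        · rw [mul_zero]
        · exact absurd h5 (by omega)
        · rw [mul_zero]
    · rw [Finset.sum_eq_single (s + 1)]
      · unfold len
        rw [if_neg h1, if_neg (by omega), if_pos rfl, if_neg (by omega), if_neg (by omega), if_pos (by omega)]
      · intro k _ hk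
        unfold len
        rw [if_neg h1]
        split_ifs <;> first | omega | ring
      · intro h
        rw [Finset.mem_range] at h
        exact absurd (by omega) h
    · refine Finset.sum_eq_zero fun k _ => ?_
      unfold len
      rw [if_neg h1]
      split_ifs <;> first | omega | ring
  unfold BL
  rw [← blockDiagonal_mul, ← blockDiagonal_mul, ← blockDiagonal_sub]
  congr 1
  funext i
  ext s r
  simp only [Pi.sub_apply, Matrix.sub_apply, Matrix.mul_apply, Matrix.of_apply]
  rw [key _ _ _ _ s r (by omega) (by omega), key _ _ _ _ s r (by omega) (by omega)]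
  unfold len
  simp only [Pi.zero_apply]
  split_ifs <;> first | omega | ring

end Pool.Agent.X306.PL
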